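import Pool.Agent.H9.MF.CM

/-!
Full answer to Q1 of MP_ce8f6c_nt (split-prime supercongruences for `E_k/(j - j(α_D))`).

`𝒥` is Klein's invariant `E₄³/Δ = q⁻¹ + 744 + ...`, `order D` is the quadratic order
`ℤ[(D + √D)/2]` of discriminant `D < 0` inside `ℂ`, and `IsFourier hk α A` says that `∑ A(n) qⁿ`
is the expansion of `E_k/(j - j(α))` near `i∞`.
-/

namespace Pool.Agent.Results.MP_ce8f6c_nt.SplitPrime

open Complex Filter ModularForm ComplexConjugate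
open UpperHalfPlane hiding I

/-- Klein's invariant `j = E₄³/Δ = q⁻¹ + 744 + O(q)`. -/
noncomputable def kleinJ (τ : ℍ) : ℂ := E₄ τ ^ 3 / discriminant τ

/-- The imaginary quadratic order of discriminant `D < 0`: all `x + y (D + √D)/2`, `x, y ∈ ℤ`. -/
def order (D : ℤ) : Set ℂ :=
  {z | ∃ x y : ℤ, z = x + y * (((D : ℂ) + I * (Real.sqrt (-(D : ℝ)) : ℝ)) / 2)}

/-- `∑ A(n) qⁿ`, `q = exp(2πiτ)`, is the expansion of `E_k/(j - j(α))` for `Im τ` large. -/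
def IsFourier {k : ℕ} (hk : 3 ≤ k) (α : ℍ) (A : ℕ → ℂ) : Prop :=
  ∀ᶠ τ : ℍ in atImInfty, HasSum (fun n => A n * cexp (2 * Real.pi * I * (τ : ℂ)) ^ n)
    (E hk τ / (kleinJ τ - kleinJ α))

lemma isFourier_iff {k : ℕ} (hk : 3 ≤ k) (α : ℍ) (A : ℕ → ℂ) :
    IsFourier hk α A ↔ Pool.Agent.H9.MF.IsExp hk α A := by
  unfold IsFourier Pool.Agent.H9.MF.IsExp
  have h : ∀ τ : ℍ, cexp (2 * Real.pi * I * (τ : ℂ)) = Pool.Agent.H9.MF.qq τ :=
    fun τ => (Pool.Agent.H9.MF.qq_eq τ).symm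
  simp only [h]
  rfl

lemma weight_data {k : ℕ} (hk3 : 3 ≤ k) (hk : k = 4 ∨ k = 6 ∨ k = 8 ∨ k = 10 ∨ k = 14) :
    ∃ (a b : ℕ) (e : PowerSeries ℤ), Pool.Agent.H9.MF.Wt k a b hk3 e := by
  have key : ∀ (c : ℤ) (a b : ℕ), Even k → -(2 * (k:ℂ) / (bernoulli k : ℂ)) = c → k + 4 * a + 6 * b = 14 →
      ∃ (a b : ℕ) (e : PowerSeries ℤ), Pool.Agent.H9.MF.Wt k a b hk3 e := by
    intro c a b hev hc hs
    refine ⟨a, b, 1 + PowerSeries.C c * PowerSeries.mk fun m => ((ArithmeticFunction.sigma (k-1) m : ℕ) : ℤ),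
      hs, ?_, ?_⟩
    · rw [map_add, map_mul, map_one, ← PowerSeries.coeff_zero_eq_constantCoeff_apply (PowerSeries.mk _),
        PowerSeries.coeff_mk, ArithmeticFunction.map_zero]
      simp
    · rw [← Pool.Agent.H9.MF.E_int hk3 hev c hc]
      exact Pool.Agent.H9.MF.hasQ_modularForm _
  rcases hk with rfl | rfl | rfl | rfl | rfl
  · exact key _ 1 1 ⟨2, rfl⟩ Pool.Agent.H9.MF.c4 rfl
  · exact key _ 2 0 ⟨3, rfl⟩ Pool.Agent.H9.MF.c6 rfl
  · exact key _ 0 1 ⟨4, rfl⟩ Pool.Agent.H9.MF.c8 rfl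
  · exact key _ 1 0 ⟨5, rfl⟩ Pool.Agent.H9.MF.c10 rfl
  · exact key _ 0 0 ⟨7, rfl⟩ Pool.Agent.H9.MF.c14 rfl

/-- **Split-prime supercongruences.** Let `k ∈ {4,6,8,10,14}`, let `α ∈ ℍ` be a root of
`aX² + bX + c` with discriminant `D < 0` and let `j(α) = J ∈ ℤ`. Then `E_k/(j - j(α))` has an
expansion `∑ A(n) qⁿ` with integral coefficients, unique even among complex sequences, with
`A(0) = 0`, and for every prime `p` with `(D/p) = 1`, `p ∤ J` and `p ∤ J - 1728`, every `π` in the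
order of discriminant `D` with `π π̄ = p` and all `n, l ≥ 1`, both supercongruences hold. -/
theorem result (k : ℕ) (hk3 : 3 ≤ k) (hk : k = 4 ∨ k = 6 ∨ k = 8 ∨ k = 10 ∨ k = 14)
    (D : ℤ) (hD : D < 0) (a b c : ℤ) (hdisc : b ^ 2 - 4 * a * c = D)
    (α : ℍ) (hα : (a : ℂ) * (α : ℂ) ^ 2 + b * (α : ℂ) + c = 0)
    (J : ℤ) (hJ : kleinJ α = J) :
    ∃ A : ℕ → ℤ, IsFourier hk3 α (fun n => (A n : ℂ)) ∧
      (∀ B : ℕ → ℂ, IsFourier hk3 α B → ∀ n, B n = A n) ∧ A 0 = 0 ∧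
      ∀ p : ℕ, p.Prime → ((p = 2 ∧ D % 8 = 1) ∨ (p ≠ 2 ∧ jacobiSym D p = 1)) →
        ¬ (p : ℤ) ∣ J → ¬ (p : ℤ) ∣ J - 1728 →
        ∀ π ∈ order D, π * conj π = p → ∀ n l : ℕ, 1 ≤ n → 1 ≤ l →
          (∃ z ∈ order D, (A (n * p ^ l) : ℂ) - π ^ (k - 2) * A (n * p ^ (l - 1))
            = conj π ^ ((k - 1) * l) * z) ∧
          (∃ z ∈ order D, (A (n * p ^ l) : ℂ) - conj π ^ (k - 2) * A (n * p ^ (l - 1))
            = π ^ ((k - 1) * l) * z) := by
  obtain ⟨a', b', e, W⟩ := weight_data hk3 hk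
  have hJ' : Pool.Agent.H9.MF.jj α = J := hJ
  set P : ℕ → ℤ := fun n => (Pool.Agent.H9.MF.PP (fun n => PowerSeries.coeff n e) n).eval J with hP
  obtain ⟨A0, hA0⟩ := Pool.Agent.H9.MF.exp_exists W α
  have hA0' : A0 = fun n => (P n : ℂ) := by
    ext n
    exact Pool.Agent.H9.MF.exp_eq W hJ' hA0 n
  refine ⟨P, ?_, ?_, ?_, ?_⟩
  · rw [isFourier_iff, ← hA0']
    exact hA0
  · intro B hB n
    rw [isFourier_iff] at hB
    exact Pool.Agent.H9.MF.exp_eq W hJ' hB n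
  · rw [hP]
    simp only [Pool.Agent.H9.MF.PP_zero, Polynomial.eval_zero]
  · intro p hp hkr hJ1 hJ2
    have : Fact p.Prime := ⟨hp⟩
    have hkr' : (p = 2 ∧ D % 8 = 1) ∨ (p ≠ 2 ∧ ¬ (p:ℤ) ∣ D) := by
      rcases hkr with h | ⟨h1, h2⟩
      · exact Or.inl h
      · refine Or.inr ⟨h1, fun hdvd => ?_⟩
        have h3 : jacobiSym D p = 0 := by
          rw [jacobiSym.eq_zero_iff]
          refine ⟨hp.ne_zero, ?_⟩
          intro hg
          have h4 : (p:ℤ) ∣ (Int.gcd D p : ℤ) := Int.dvd_coe_gcd hdvd dvd_rfl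
          rw [hg] at h4
          have h5 : p ∣ 1 := by exact_mod_cast h4
          exact hp.one_lt.ne' (Nat.dvd_one.mp h5)
        rw [h3] at h2
        norm_num at h2
    -- one inclusion, for every element of norm `p`
    have main : ∀ π : ℂ, Pool.Agent.H9.MF.InO D π → π * conj π = p → ∀ n l : ℕ, 1 ≤ n → 1 ≤ l →
        ∃ z, Pool.Agent.H9.MF.InO D z ∧ (P (n * p ^ l) : ℂ) - π ^ (k - 2) * P (n * p ^ (l - 1))
            = conj π ^ ((k - 1) * l) * z := by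
      intro π hπ hN n l hn hl
      obtain ⟨f, n', hn', hnf⟩ := Nat.exists_eq_pow_mul_and_not_dvd (by omega : n ≠ 0) p hp.one_lt.ne'
      have hn'0 : 1 ≤ n' := by
        rcases Nat.eq_zero_or_pos n' with h | h
        · subst h
          simp at hnf
          omega
        · exact h
      obtain ⟨w, hw, hw2⟩ := Pool.Agent.H9.MF.cm_final W hD hdisc hα hJ' hkr' hJ1 hJ2 hπ hN n' hn'0 hn' (f + l - 1)
      have e1 : p ^ (f + l - 1 + 1) * n' = n * p ^ l := by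
        have : f + l - 1 + 1 = f + l := by omega
        rw [this, hnf, pow_add]
        ring
      have e2 : p ^ (f + l - 1) * n' = n * p ^ (l - 1) := by
        have : f + l - 1 = f + (l - 1) := by omega
        rw [this, hnf, pow_add]
        ring
      rw [e1, e2] at hw2
      have e3 : (k - 1) * (f + l - 1 + 1) = (k - 1) * l + (k - 1) * f := by
        have : f + l - 1 + 1 = f + l := by omega
        rw [this]
        ring
      refine ⟨conj π ^ ((k - 1) * f) * w, ?_, ?_⟩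
      · obtain ⟨m, hm⟩ := Pool.Agent.H9.MF.disc_four hdisc
        have h1 := hπ.conj
        exact (Pool.Agent.H9.MF.OD D m hD hm).mul_mem ((Pool.Agent.H9.MF.OD D m hD hm).pow_mem h1 _) hw
      · rw [hw2, e3, pow_add]
        ring
    intro π hπ hN n l hn hl
    refine ⟨?_, ?_⟩
    · obtain ⟨z, hz, hz2⟩ := main π hπ hN n l hn hl
      exact ⟨z, hz, hz2⟩
    · have hπ' : Pool.Agent.H9.MF.InO D (conj π) := Pool.Agent.H9.MF.InO.conj hπ
      have hN' : conj π * conj (conj π) = p := by rw [Complex.conj_conj, mul_comm]; exact hN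
      obtain ⟨z, hz, hz2⟩ := main (conj π) hπ' hN' n l hn hl
      rw [Complex.conj_conj] at hz2
      exact ⟨z, hz, hz2⟩

end Pool.Agent.Results.MP_ce8f6c_nt.SplitPrime
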